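import Pool.Agent.Q296.NF.Main

/-!
# Injectivity of the Abel-Jacobi maps for products of hypersurfaces over all number fields

The question: is `AJ^m : CH^m_hom(X)_ℚ → J^(2m-1)(X)_ℚ` injective for all smooth projective `X` over
all number fields `k ⊂ ℂ`? We prove that the answer is positive for ALL finite products
`X_1 × ⋯ × X_r` of smooth hypersurfaces of any dimensions and degrees over ALL number fields `k`, and
for all `m`, if and only if it is positive for the following cycles: `k` runs through any set `𝒦` of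
number fields such that every number field is contained in a member of `𝒦`; for `k ∈ 𝒦` the
variety is a single hypersurface

  `W : f(x_0, …, x_(a+1)) + (y_1^d - z_1^d) + ⋯ + (y_r^d - z_r^d) = 0`, `a ≤ ω_k(n)`, `n = dim W`,

and `m` is near the middle, `|2 m - n| ≤ φ_k(n)`, for a set `S_k` of pairs `(n, d)` with arbitrarily
large `n` of both parities and arbitrarily divisible `d`; `ω_k` and `φ_k` tend to infinity, however
slowly, and `S_k`, `ω_k`, `φ_k` may depend on `k` in any way. So almost all variables of `W` are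
diagonal, and one may for instance restrict to fields containing many roots of unity and to triples
`(k, n, d)` in a sparse set.
-/

open CategoryTheory MonoidalCategory

universe v u w w'

namespace Pool.Agent.Results.MP_a1cc03_ag.ProductsOverLargeFields

open Pool.Agent.Q28.HJ (pow)
open Pool.Agent.Q296.NF

/-- **The Abel-Jacobi maps for products of hypersurfaces over number fields.** Let `K` be the set of
number fields `k ⊂ ℂ`, with the Chow motives, the smooth hypersurfaces and the Abel-Jacobi maps
`AJ^i : CH^i_hom(M)_ℚ → J^(2i-1)(M)_ℚ` over each of them (`hF`: known facts). Let `𝒦` be a set of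
number fields such that every number field is contained in a member of `𝒦`. For `k ∈ 𝒦` let `S k` be
a set of pairs `(n, d)` which contains, for all `N` and `D` and both parities, a pair with `n ≥ N` and
`D ∣ d`, and let `ω k, φ k : ℕ → ℕ` tend to infinity. The following statements are equivalent.

1. For all `k ∈ 𝒦`: `AJ^m` is injective on `CH^m_hom(W)_ℚ` for all hypersurfaces `W` over `k` with
  `(dim W, deg W) ∈ S k` which are iterated suspensions
  `f(x) + (y_1^d - z_1^d) + ⋯ + (y_r^d - z_r^d) = 0` of hypersurfaces `X : f(x) = 0` with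
  `dim X ≤ ω_k(dim W)`, and all `m` with `|2 m - dim W| ≤ φ_k(dim W)`.
2. For all number fields `k`, all smooth hypersurfaces `X` over `k` and all `i`, the map `AJ^i` is
  injective on `CH^i_hom(X)_ℚ`.
3. For all number fields `k` and all `i`, the map `AJ^i` is injective on `CH^i_hom(M)_ℚ` for all
  motives `M` over `k` which are obtained from motives of smooth hypersurfaces, the unit and the
  Lefschetz motive by tensor products, direct sums and direct summands; in particular for all
  products `X_1 × ⋯ × X_r`.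
4. For all number fields `k` and all tensor products `M` of primitive motives of smooth
  hypersurfaces over `k`, of weight `N`: `CH^i(M)_ℚ = 0` if `2 i ≠ N` and `2 i ≠ N + 1`;
  `CH^i_hom(M)_ℚ = 0` if `2 i = N`; and `AJ^i` is injective on `CH^i(M)_ℚ` if `2 i = N + 1`. -/
theorem result {K : Type*} {𝓜 : K → Type u} [∀ k, Category.{v} (𝓜 k)]
    [∀ k, MonoidalCategory (𝓜 k)] [∀ k, Preadditive (𝓜 k)] [∀ k, MonoidalPreadditive (𝓜 k)]
    [∀ k, BraidedCategory (𝓜 k)] {F : FieldData.{v, u, w, w'} 𝓜} (hF : F.Facts) (𝒦 : Set K)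
    (h𝒦 : ∀ k, ∃ k' ∈ 𝒦, F.le k k') (S : K → Set (ℕ × ℕ)) (hS : ∀ k ∈ 𝒦, BothCofinal (S k))
    (ω φ : K → ℕ → ℕ) (hω : ∀ k ∈ 𝒦, Filter.Tendsto (ω k) Filter.atTop Filter.atTop)
    (hφ : ∀ k ∈ 𝒦, Filter.Tendsto (φ k) Filter.atTop Filter.atTop) :
    [∀ k ∈ 𝒦, ∀ X W : (F.T k).Hyp, Relation.ReflTransGen (F.T k).Susp X W →
        ((F.T k).dim W, (F.T k).deg W) ∈ S k → (F.T k).dim X ≤ ω k ((F.T k).dim W) →
          ∀ m, 2 * m ≤ (F.T k).dim W + φ k ((F.T k).dim W) →
            (F.T k).dim W ≤ 2 * m + φ k ((F.T k).dim W) → (F.T k).Inj m ((F.T k).mot W),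
      ∀ k, ∀ (X : (F.T k).Hyp) (i : ℕ), (F.T k).Inj i ((F.T k).mot X),
      ∀ k, ∀ M : 𝓜 k, (F.T k).Gen M → ∀ i, (F.T k).Inj i M,
      ∀ k, ∀ (N : ℕ) (M : 𝓜 k), (F.T k).IsProd N M →
        (∀ i, 2 * i ≠ N → 2 * i ≠ N + 1 → ∀ f : pow (F.T k).L i ⟶ M, f = 0) ∧
          (∀ i, 2 * i = N → ∀ f : pow (F.T k).L i ⟶ M, (F.T k).null f → f = 0) ∧
            ∀ i, 2 * i = N + 1 → (F.T k).Inj i M].TFAE :=
  final hF 𝒦 h𝒦 S hS ω φ hω hφ

end Pool.Agent.Results.MP_a1cc03_ag.ProductsOverLargeFields
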