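import Pool.Agent.Q226.SC.ZQ

set_option autoImplicit false

/-!
# The kernel of the higher Abel-Jacobi map on zero-cycles over number fields
-/

namespace Pool.Agent.Results.MP_a1cc03_ag.RationalPointsOnSurfaces

open Pool.Agent.Q226.SC

/-- Zero-cycles on smooth projective varieties over number fields `k ⊂ ℂ`, considered as varieties
over `ℚ` with a chosen geometric component, and the higher Abel-Jacobi maps `AJ^m` for
`m = dim X`; the index is an embedding of `ℚ̄` in `ℂ`.

1. For every smooth projective variety `X` of positive dimension over a number field, every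
zero-cycle `z` on `X` and every embedding, a multiple of `z` is homologically trivial with
Abel-Jacobi image `0` if and only if a multiple of it is `E(t) - E(t')` for a family `E` over `ℚ` of
effective zero-cycles on `X` parametrised by a geometrically simply connected smooth projective
surface `T` over `ℚ` and two rational points `t, t'` of `T`. So the kernel does not depend on the
embedding.

2. The maps `AJ^m`, `m = dim X`, are injective for all `X` over all number fields if and only if any
two rational points of a geometrically simply connected smooth projective surface over `ℚ` are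
rationally equivalent up to torsion.

3. This is the case if and only if the dimension of the space spanned by the differences of rational
points of `T` in `CH₀(T) ⊗ ℚ` is bounded, uniformly in these surfaces `T`. -/
theorem result (G : Geo) (C : Cycles G) (Q : Arith C) (h : Facts C) (q : Q.Facts) :
    (∀ X : Q.Sch, 1 ≤ G.dim (Q.geo X) → ∀ (z : Q.Z X) (i : Q.Index),
      ((∃ n : ℕ, 0 < n ∧ Q.AJKernel i X (n • z)) ↔
        ∃ (T : Q.Sch) (E : Q.FamQ T X) (t t' : Q.Pts T) (n : ℕ),
          Q.SCSurface T ∧ 0 < n ∧ n • z = Q.cyc E t - Q.cyc E t')) ∧
    (∀ i : Q.Index, ((∀ X : Q.Sch, 1 ≤ G.dim (Q.geo X) → Q.Injective i X) ↔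
      ∀ T : Q.Sch, Q.SCSurface T → Q.PointsEquivalent T)) ∧
    ((∀ T : Q.Sch, Q.SCSurface T → Q.PointsEquivalent T) ↔
      ∃ m : ℕ, ∀ T : Q.Sch, Q.SCSurface T → Q.RankBelow m T) :=
  ⟨fun X hX z i => aj_kernel_iff h q i X hX z, fun i => aj_injective_iff h q i, rank_law q⟩

end Pool.Agent.Results.MP_a1cc03_ag.RationalPointsOnSurfaces
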