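import Pool.Agent.Q129.BL.AJMain

/-!
# The Abel–Jacobi conjecture over number fields: rational varieties, middle codimension

The conjecture of Beilinson and Bloch (Q1): the Abel–Jacobi map
`AJ^m : CH^m(X)_hom ⊗ ℚ → J^(2m-1)(X_ℂ) ⊗ ℚ` is injective for all smooth projective varieties `X`
over number fields `k ⊂ ℂ` and all `m ≥ 1`.

Let `l` be a finite list of smooth projective varieties over `k`, and `N` an integer larger than
their dimensions, such that their disjoint union embeds in `ℙ^(2N-1)`. The blow-up `Y = Y(l, N)` of
`ℙ^(2N-1)` along this disjoint union is a smooth projective rational variety of dimension `2N - 1`,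
and `AJ^N` is its Abel–Jacobi map with values in the intermediate Jacobian of the middle cohomology
group `H^(2N-1)(Y)`.

1. `AJ^N` is injective for `Y(l, N)` if and only if `AJ^m` is injective for all members of `l` and all
  `m ≥ 1`.
2. Let `k s`, `l s`, `N s` be any exhausting sequence (each variety over a number field belongs to all
  but finitely many of the lists `l s`, after extension of the base field). Then Q1 is true if and
  only if `AJ^(N s)` is injective for the rational variety `Y(l s, N s)` for infinitely many `s`. In
  other words: if Q1 fails for one number field, one variety and one codimension, then it fails in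
  the middle codimension for all but finitely many of the rational varieties `Y(l s, N s)`. The
  sequence may be as sparse as one likes.
-/

namespace Pool.Agent.Results.MP_a1cc03_ag.RationalVarietiesSuffice

open Pool.Agent.Q129.BL

universe u

/-- **The Abel–Jacobi conjecture over number fields and rational varieties.** Let `T` be the number
fields `k ⊂ ℂ`, the smooth projective varieties over them, their homologically trivial cycles and
Abel–Jacobi maps (`hT`: known facts; `T.Bl l n` is the blow-up of `ℙ^n` along the disjoint union of
the members of `l`).

1. For all finite lists `l` of varieties over `k` and all `N` larger than the dimensions of the members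
  of `l` with `T.N0 l ≤ 2 N - 1`: `AJ^N` is injective for the blow-up of `ℙ^(2N-1)` if and only if
  `AJ^m` is injective for all `X ∈ l` and all `m ≥ 1`.
2. For every exhausting sequence: `AJ^m` is injective for all number fields `k ⊂ ℂ`, all smooth
  projective varieties over `k` and all `m ≥ 1` if and only if `AJ^(N s)` is injective for the blow-up
  of `ℙ^(2 N s - 1)` along the disjoint union of the members of `l s`, for infinitely many `s`. -/
theorem result (T : AJTheory.{u}) (hT : T.Facts) : T.ForEachBlowUp ∧ T.AlongSequences :=
  ⟨fun _ l N hN hl => AJTheory.blowup_iff hT l N hN hl, AJTheory.exhausting_iff hT⟩

end Pool.Agent.Results.MP_a1cc03_ag.RationalVarietiesSuffice
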