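import Pool.Agent.Q28.SQ.Main

/-!
# MP_a1cc03_ag: Abel-Jacobi maps, squares of cycles and algebraic equivalence
-/

open CategoryTheory AlgebraicGeometry

universe u v w w'

namespace Pool.Agent.Results.MP_a1cc03_ag.SquaresAndEquivalence

open Pool.Agent.H914 Pool.Agent.H914.VarClass Pool.Agent.H914.VarClass.Obj Pool.Agent.W492.BB
  Pool.Agent.Q28.PV Pool.Agent.Q28.SQ

/-- Let `C` be the Chow theory (rational coefficients) and `H` a Weil cohomology theory on a class
of smooth projective varieties over a number field `k` which is closed under products and contains a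
curve, and `D` the Abel-Jacobi maps on homologically trivial cycles.

1. The Abel-Jacobi map is injective on `CH^j(X)_hom` if and only if its kernel consists of
  algebraically trivial cycles and homologically trivial `Γ ∈ CH^j(T × X)`, `T` a curve, act as zero
  on `CH^1(T)_hom`.
2. The Abel-Jacobi maps of all `X` in all codimensions are injective if and only if their kernels
  consist of algebraically trivial cycles and, equivalently, homologically trivial correspondences
  kill homologically trivial cycles; products of two homologically trivial cycles vanish; squares of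
  homologically trivial cycles vanish; products of homologically trivial cycles and homologically
  trivial divisors vanish. It suffices to know for the `X` of dimension `2 i + 1` that the kernel in
  codimension `i + 1` is algebraically trivial, and that homologically trivial
  `Γ ∈ CH^(i+1)(T × X)` kill `CH^1(T)_hom`. -/
theorem result {k : Type u} [Field k] {𝒱 : VarClass k} {C : TheoryData.{u, v, 0} 𝒱 ℚ}
    [Pool.Agent.TH133.IsChowProj C] {K : Type w} [Field K] {H : WeilTheoryData.{u, v, w} C K}
    [Pool.Agent.TH133.IsWeilProj H] {F : Type} [Field F] [Algebra ℚ F]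
    (D : AJTheory.{u, v, w, w'} H F) (hD : PoincareReducibility D)
    (hcurve : ∃ T : 𝒱.Obj, T.dim = 1) :
    (∀ (X : 𝒱.Obj) (j : ℕ),
      IsInjective D X j ↔ KernelIsAlg D X j ∧ KillsJacobians H X j) ∧
    [∀ (X : 𝒱.Obj) (j : ℕ), IsInjective D X j,
      (∀ (X : 𝒱.Obj) (j : ℕ), KernelIsAlg D X j) ∧ CorrespondencesKill H,
      (∀ (X : 𝒱.Obj) (j : ℕ), KernelIsAlg D X j) ∧ ProductsVanish H,
      (∀ (X : 𝒱.Obj) (j : ℕ), KernelIsAlg D X j) ∧ SquaresVanish H,
      (∀ (X : 𝒱.Obj) (j : ℕ), KernelIsAlg D X j) ∧ DivisorsKill H,
      (∀ (i : ℕ) (X : 𝒱.Obj), X.dim = 2 * i + 1 → KernelIsAlg D X (i + 1)) ∧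
        ∀ (i : ℕ) (X : 𝒱.Obj), X.dim = 2 * i + 1 → KillsJacobians H X (i + 1)].TFAE := by
  obtain ⟨T, hT⟩ := hcurve
  exact final D hD hT

end Pool.Agent.Results.MP_a1cc03_ag.SquaresAndEquivalence
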